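import Pool.Agent.N929.EZ.Stm
import Pool.Agent.N929.EY.MI

/-!
# Moving bumps into or out of the window (task MV of project EZ)
-/

set_option autoImplicit false
set_option linter.unusedVariables false

namespace Pool.Agent.N833.EZ

open Pool.Agent.H976R2 Pool.Agent.H976R2.Dir Finset
open Pool.Agent.N929.EX Pool.Agent.N929.EY Pool.Agent.N929.EZ
open scoped Classical

noncomputable section

/-- the classes of all walks -/
theorem cl_all (h : S_CL1) {L : Finset (ℤ × ℤ)} (hL : CF L) (E : Finset (ℤ × ℤ))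
    (p u l i : ℕ) : (H1 L (fun _ => 1) 1 E p u l i).card =
      E.card.choose i * (H1 L (fun _ => 1) 1 E p u l 0).card :=
  h Set.univ L hL (fun q _ v _ => Set.mem_univ v) (fun _ => 1) p l
    (fun _ _ _ _ _ _ _ _ _ => rfl) 1 E u i

theorem gen (h : S_CL1) {L : Finset (ℤ × ℤ)} (hL : CF L) (Q : ℕ → ℕ → Prop) (M : ℝ)
    (N N' p l : ℕ) (σ : ℕ → ℕ) (hpl : p + l ≤ N) (hM : 0 ≤ M)
    (hσ : ∀ S i, Q S i → i ≤ S → 2 * i ≤ N - l - p → N' + 2 * i = N + 2 * σ i ∧
      (S.choose i : ℝ) ≤ M * (S.choose (σ i) : ℝ)) :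
    (((SW N).filter (fun w => Q (DD L 1 (p, N - l) w).card
        (OO L 1 (p, N - l) w).card)).card : ℝ) ≤ M * ((SW N').card : ℝ) := by
  obtain ⟨G, hG⟩ : ∃ G, G = (SW N).filter (fun w => Q (DD L 1 (p, N - l) w).card
        (OO L 1 (p, N - l) w).card) := ⟨_, rfl⟩
  rw [← hG]
  obtain ⟨κ, hκ⟩ : ∃ κ : List Dir → Finset (ℤ × ℤ) × ℕ,
    ∀ w, κ w = (DD L 1 (p, N - l) w, (OO L 1 (p, N - l) w).card) := ⟨_, fun _ => rfl⟩
  obtain ⟨Hc, hHc⟩ : ∃ Hc : Finset (ℤ × ℤ) × ℕ → ℕ → Finset (List Dir),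
    ∀ x i, Hc x i = H1 L (fun _ => 1) 1 x.1 p (N - p - l - 2 * x.2) l i := ⟨_, fun _ _ => rfl⟩
  obtain ⟨K, hK⟩ : ∃ K, K = G.image κ := ⟨_, rfl⟩
  have hcls : ∀ x ∈ K, 2 * x.2 ≤ N - l - p ∧ N' + 2 * x.2 = N + 2 * σ x.2 ∧
      (x.1.card.choose x.2 : ℝ) ≤ M * (x.1.card.choose (σ x.2) : ℝ) := by
    intro x hx
    rw [hK, mem_image] at hx
    obtain ⟨w, hw, rfl⟩ := hx
    rw [hG, mem_filter] at hw
    obtain ⟨hw, hq⟩ := hw
    rw [hκ]
    have w1 := win_len hL (a := p) (b := N - l) (by omega) (by omega) hw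
    have w2 : (OO L 1 (p, N - l) w).card ≤ (DD L 1 (p, N - l) w).card := by
      refine card_le_card fun q hq => ?_
      unfold Pool.Agent.N929.EX.OO at hq
      unfold DD
      rw [mem_filter] at hq ⊢
      obtain ⟨hq1, k, hk⟩ := hq
      exact ⟨hq1, k, Or.inr hk⟩
    exact ⟨w1, hσ _ _ hq w2 w1⟩
  have hG1 : (G.card : ℝ) ≤ ∑ x ∈ K, ((Hc x x.2).card : ℝ) := by
    rw [card_eq_sum_card_image κ G, ← hK]
    push_cast
    refine sum_le_sum (fun x hx => ?_)
    have : (G.filter (fun w => κ w = x)).card ≤ (Hc x x.2).card := by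
      refine card_le_card (fun w hw => ?_)
      rw [mem_filter, hG, mem_filter] at hw
      obtain ⟨⟨hw, hq⟩, rfl⟩ := hw
      obtain ⟨g1, -⟩ := hcls _ hx
      rw [hHc, H1, mem_filter, hκ]
      rw [hκ] at g1
      simp only at g1 ⊢
      have e1 : p + (N - p - l - 2 * (OO L 1 (p, N - l) w).card +
          2 * (OO L 1 (p, N - l) w).card) = N - l := by omega
      have e2 : N - l + l = N := by omega
      rw [e1, e2]
      exact ⟨hw, trivial, rfl, rfl⟩
    exact_mod_cast this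
  -- one class
  have h2c : ∀ x ∈ K, ((Hc x x.2).card : ℝ) ≤ M * ((Hc x (σ x.2)).card : ℝ) := by
    intro x hx
    obtain ⟨-, -, g⟩ := hcls x hx
    rw [hHc, hHc, cl_all h hL, cl_all h hL x.1 p _ l (σ x.2)]
    push_cast
    rw [← mul_assoc]
    exact mul_le_mul_of_nonneg_right g (by positivity)
  -- the shifted classes are disjoint
  have h3c : ∑ x ∈ K, ((Hc x (σ x.2)).card : ℝ) ≤ ((SW N').card : ℝ) := by
    have hT : ∀ x ∈ K, p + (N - p - l - 2 * x.2 + 2 * σ x.2) = N' - l ∧ N' - l + l = N' := by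
      intro x hx
      obtain ⟨g1, g2, -⟩ := hcls x hx
      constructor
      · omega
      · omega
    have hdisj : ∀ x ∈ K, ∀ x' ∈ K, x ≠ x' → Disjoint (Hc x (σ x.2)) (Hc x' (σ x'.2)) := by
      intro x hx x' hx' hne
      rw [Finset.disjoint_left]
      intro w hw hw'
      apply hne
      obtain ⟨-, g2, -⟩ := hcls x hx
      obtain ⟨-, g2', -⟩ := hcls x' hx'
      rw [hHc, H1, mem_filter, (hT x hx).1] at hw
      rw [hHc, H1, mem_filter, (hT x' hx').1] at hw'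
      obtain ⟨-, -, a1, a2⟩ := hw
      obtain ⟨-, -, b1, b2⟩ := hw'
      have c2 := a2.symm.trans b2
      refine Prod.ext (a1.symm.trans b1) ?_
      show x.2 = x'.2
      omega
    have hun : (K.biUnion (fun x => Hc x (σ x.2))).card = ∑ x ∈ K, (Hc x (σ x.2)).card :=
      card_biUnion hdisj
    have hsub : K.biUnion (fun x => Hc x (σ x.2)) ⊆ SW N' := by
      intro w hw
      rw [mem_biUnion] at hw
      obtain ⟨x, hx, hw⟩ := hw
      rw [hHc, H1, mem_filter, (hT x hx).1, (hT x hx).2] at hw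
      exact hw.1
    have := card_le_card hsub
    rw [hun] at this
    exact_mod_cast this
  calc (G.card : ℝ) ≤ ∑ x ∈ K, ((Hc x x.2).card : ℝ) := hG1
    _ ≤ ∑ x ∈ K, M * ((Hc x (σ x.2)).card : ℝ) := sum_le_sum h2c
    _ = M * ∑ x ∈ K, ((Hc x (σ x.2)).card : ℝ) := by rw [Finset.mul_sum]
    _ ≤ _ := mul_le_mul_of_nonneg_left h3c hM

theorem mv (h : S_CL1) : S_MV := by
  intro L hL Q M N p l s hpl hM
  constructor
  · intro hQ
    refine gen h hL Q M N (N + 2 * s) p l (fun i => i + s) hpl hM ?_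
    intro S i hq hi h2
    exact ⟨by ring, hQ S i hq hi⟩
  · intro hQ
    refine gen h hL Q M N (N - 2 * s) p l (fun i => i - s) hpl hM ?_
    intro S i hq hi h2
    obtain ⟨h3, h4⟩ := hQ S i hq hi
    exact ⟨by omega, h4⟩

end

end Pool.Agent.N833.EZ
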